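import Mathlib
import Pool.Agent.MP_879d0a_co.H89.Graph

/-! The minimum of the universal-cover growth rate over graphs in which half of the vertices
have degree two and half have degree three is attained by `K_4` minus an edge, and equals
the real root of `x^3 = x + 2`. -/

set_option autoImplicit false

namespace Pool.Agent.Results.MP_879d0a_co.MinGrowth

open Filter Topology

/-- the number of non-backtracking walks of length `l`: sequences of `l` directed edges, each one
starting at the head of the previous one and different from its reverse -/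
noncomputable def nbWalkCount {V : Type} (G : SimpleGraph V) (l : ℕ) : ℕ :=
  Nat.card {w : Fin l → G.Dart //
    ∀ i j : Fin l, j.val = i.val + 1 → (w i).snd = (w j).fst ∧ w j ≠ (w i).symm}

/-- `ρ` is the limit of the `l`-th roots of the numbers of non-backtracking walks -/
def HasGrowthRate {V : Type} (G : SimpleGraph V) (ρ : ℝ) : Prop :=
  Tendsto (fun l : ℕ => (nbWalkCount G l : ℝ) ^ (1 / (l : ℝ))) atTop (𝓝 ρ)

/-- connected, half of the vertices have degree two and half have degree three -/
def InClass {V : Type} (G : SimpleGraph V) : Prop :=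
  G.Connected ∧ 2 * {v | (G.neighborSet v).ncard = 2}.ncard = Nat.card V ∧
    2 * {v | (G.neighborSet v).ncard = 3}.ncard = Nat.card V

/-- the complete graph on four vertices with one edge deleted -/
def K4minus : SimpleGraph (Fin 4) := (⊤ : SimpleGraph (Fin 4)).deleteEdges {s(2, 3)}

open Pool.Agent.MP_879d0a_co.H89

theorem lower {r : ℝ} (hr : r ^ 3 = r + 2) (V : Type) [Finite V] (G : SimpleGraph V)
    (hG : InClass G) : ∃ ρ : ℝ, HasGrowthRate G ρ ∧ r ≤ ρ := by
  classical
  have := Fintype.ofFinite V
  obtain ⟨hc, h2, h3⟩ := hG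
  have hne : Nonempty V := hc.nonempty
  have hd : ∀ v, (G.neighborSet v).ncard = G.degree v := fun v => by
    rw [← SimpleGraph.card_neighborSet_eq_degree, Set.ncard_eq_toFinset_card',
      Set.toFinset_card]
  have hset : ∀ k : ℕ, {v | (G.neighborSet v).ncard = k}.ncard
      = (Finset.univ.filter fun v => G.degree v = k).card := fun k => by
    rw [← Set.ncard_coe_finset]
    congr 1
    ext v
    simp [hd]
  rw [hset, Nat.card_eq_fintype_card] at h2 h3
  have hdisj : Disjoint (Finset.univ.filter fun v => G.degree v = 2)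
      (Finset.univ.filter fun v => G.degree v = 3) := by
    rw [Finset.disjoint_filter]
    intro v _ h
    omega
  have huniv : (Finset.univ.filter fun v => G.degree v = 2)
      ∪ (Finset.univ.filter fun v => G.degree v = 3) = Finset.univ := by
    apply Finset.eq_univ_of_card
    rw [Finset.card_union_of_disjoint hdisj]
    omega
  have hdeg : ∀ v, G.degree v = 2 ∨ G.degree v = 3 := fun v => by
    have : v ∈ (Finset.univ.filter fun v => G.degree v = 2)
      ∪ (Finset.univ.filter fun v => G.degree v = 3) := by rw [huniv]; exact Finset.mem_univ v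
    simpa using this
  exact growth_ge G hdeg hr (by omega)

theorem K4minus_adj (a b : Fin 4) :
    K4minus.Adj a b ↔ a ≠ b ∧ ¬(a = 2 ∧ b = 3) ∧ ¬(a = 3 ∧ b = 2) := by
  simp [K4minus]

instance : DecidableRel K4minus.Adj := fun a b => decidable_of_iff _ (K4minus_adj a b).symm

theorem K4minus_inClass : InClass K4minus := by
  have hd : ∀ v, (K4minus.neighborSet v).ncard = K4minus.degree v := fun v => by
    rw [← SimpleGraph.card_neighborSet_eq_degree, Set.ncard_eq_toFinset_card',
      Set.toFinset_card]
  have hset : ∀ k : ℕ, {v | (K4minus.neighborSet v).ncard = k}.ncard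
      = (Finset.univ.filter fun v => K4minus.degree v = k).card := fun k => by
    rw [← Set.ncard_coe_finset]
    congr 1
    ext v
    simp [hd]
  refine ⟨?_, ?_, ?_⟩
  · have h0 : ∀ v, K4minus.Reachable 0 v := by
      intro v
      by_cases hv : v = 0
      · rw [hv]
      · apply SimpleGraph.Adj.reachable
        revert v
        decide
    exact ⟨fun u v => (h0 u).symm.trans (h0 v)⟩
  · rw [hset, Nat.card_eq_fintype_card]
    decide
  · rw [hset, Nat.card_eq_fintype_card]
    decide

/-- the Perron eigenvector -/
noncomputable def pv (r : ℝ) (u v : Fin 4) : ℝ :=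
  if 2 ≤ v.val then r else if 2 ≤ u.val then r ^ 2 else 2

open Classical in
theorem pv_eig {r : ℝ} (hr : r ^ 3 = r + 2) (e : K4minus.Dart) :
    (∑ f : K4minus.Dart, if NB K4minus e f then pv r f.fst f.snd else 0)
      ≤ r * pv r e.fst e.snd := by
  have h1 : ∀ f : K4minus.Dart, (if NB K4minus e f then pv r f.fst f.snd else 0) = (fun v y =>
      if e.snd = v ∧ y ≠ e.fst then pv r v y else 0) f.fst f.snd := by
    intro f
    simp only [nb_iff]
  rw [Finset.sum_congr rfl (fun f _ => h1 f), sum_dart K4minus (fun v y =>
      if e.snd = v ∧ y ≠ e.fst then pv r v y else 0)]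
  simp only [SimpleGraph.neighborFinset_eq_filter, Finset.sum_filter, Fin.sum_univ_four,
    K4minus_adj]
  obtain ⟨⟨a, b⟩, hab⟩ := e
  rw [K4minus_adj] at hab
  fin_cases a <;> fin_cases b <;> simp at hab <;> simp [pv] <;> nlinarith

theorem result :
    ∃ ρ₀ : ℝ, ρ₀ ^ 3 = ρ₀ + 2 ∧ InClass K4minus ∧ HasGrowthRate K4minus ρ₀ ∧
      ∀ (V : Type) [Finite V] (G : SimpleGraph V), InClass G →
        ∃ ρ : ℝ, HasGrowthRate G ρ ∧ ρ₀ ≤ ρ := by
  obtain ⟨r, hr⟩ := exists_root
  have hb := root_bounds hr
  refine ⟨r, hr, K4minus_inClass, ?_, lower hr⟩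
  obtain ⟨s, hs, hrs⟩ := lower hr (Fin 4) K4minus K4minus_inClass
  have hpv : ∀ e : K4minus.Dart, 1 ≤ pv r e.fst e.snd := fun e => by
    unfold pv
    split_ifs <;> nlinarith
  have hne : Nonempty K4minus.Dart := ⟨⟨(0, 1), by decide⟩⟩
  have hsr : s ≤ r := by
    refine growth_le (fun l => (nbWalkCount K4minus l : ℝ))
      (∑ e : K4minus.Dart, pv r e.fst e.snd) r s
      (Finset.sum_pos (fun e _ => by linarith [hpv e]) Finset.univ_nonempty) (by linarith)
      (fun l => Nat.cast_nonneg _) (fun l => ?_) hs
    have h1 : nbWalkCount K4minus (l + 1) = ∑ e, cnt (NB K4minus) l e :=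
      card_chain_succ (NB K4minus) l
    simp only [h1]
    push_cast
    rw [Finset.sum_mul]
    refine Finset.sum_le_sum fun e _ => ?_
    rw [mul_comm]
    exact cnt_le (NB K4minus) (fun e => pv r e.fst e.snd) hpv r (by linarith)
      (fun e => by convert pv_eig hr e) l e
  rw [← le_antisymm hsr hrs]
  exact hs

end Pool.Agent.Results.MP_879d0a_co.MinGrowth
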